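import Pool.Agent.Y6.G.Stm

/-! # Project EP: a large coefficient in the detuning (helper523, for helper6) -/

set_option autoImplicit false

namespace Pool.Agent.Y523.EP.Van

open Pool.Agent.Y6.M (Z3 Md nsq len)
open Pool.Agent.Y6.F (ln)
open Pool.Agent.Y6.G

lemma lag (x y w A B W M G : ℝ) (h0 : |A + B + W| ≤ G)
    (h1 : |A * x ^ 2 + B * y ^ 2 + W * w ^ 2| ≤ G)
    (h2 : |A * (x ^ 2) ^ 2 + B * (y ^ 2) ^ 2 + W * (w ^ 2) ^ 2| ≤ G) (hM : 1 ≤ M) (hy : |y| ≤ M)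
    (hw : |w| ≤ M) (hd : 1 ≤ |(x ^ 2 - y ^ 2) * (x ^ 2 - w ^ 2)|) : |A| ≤ 4 * M ^ 4 * G := by
  have hG : 0 ≤ G := (abs_nonneg _).trans h0
  have e : A * ((x ^ 2 - y ^ 2) * (x ^ 2 - w ^ 2)) =
      (A * (x ^ 2) ^ 2 + B * (y ^ 2) ^ 2 + W * (w ^ 2) ^ 2) -
        (y ^ 2 + w ^ 2) * (A * x ^ 2 + B * y ^ 2 + W * w ^ 2) +
        y ^ 2 * w ^ 2 * (A + B + W) := by ring
  have hy2 : y ^ 2 ≤ M ^ 2 := by
    rw [← sq_abs]
    exact pow_le_pow_left₀ (abs_nonneg _) hy 2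
  have hw2 : w ^ 2 ≤ M ^ 2 := by
    rw [← sq_abs]
    exact pow_le_pow_left₀ (abs_nonneg _) hw 2
  have hM2 : 1 ≤ M ^ 2 := one_le_pow₀ hM
  have hy0 : 0 ≤ y ^ 2 := sq_nonneg _
  have hw0 : 0 ≤ w ^ 2 := sq_nonneg _
  have b1 : |A| ≤ |A * ((x ^ 2 - y ^ 2) * (x ^ 2 - w ^ 2))| := by
    rw [abs_mul]
    exact le_mul_of_one_le_right (abs_nonneg _) hd
  have b2 : |(y ^ 2 + w ^ 2) * (A * x ^ 2 + B * y ^ 2 + W * w ^ 2)| ≤ (2 * M ^ 2) * G := by
    rw [abs_mul, abs_of_nonneg (by positivity)]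
    exact mul_le_mul (by linarith) h1 (abs_nonneg _) (by positivity)
  have b3 : |y ^ 2 * w ^ 2 * (A + B + W)| ≤ (M ^ 2 * M ^ 2) * G := by
    rw [abs_mul, abs_of_nonneg (by positivity)]
    exact mul_le_mul (mul_le_mul hy2 hw2 hw0 (by positivity)) h0 (abs_nonneg _) (by positivity)
  have b4 : |A| ≤ G + 2 * M ^ 2 * G + M ^ 2 * M ^ 2 * G := by
    refine b1.trans ?_
    rw [e]
    refine (abs_add_le _ _).trans ?_
    refine add_le_add ((abs_sub _ _).trans ?_) b3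
    exact add_le_add h2 b2
  have b5 : G ≤ M ^ 4 * G := by
    have : (1 : ℝ) ≤ M ^ 4 := one_le_pow₀ hM
    nlinarith
  have b6 : M ^ 2 * G ≤ M ^ 4 * G := by
    have : M ^ 2 ≤ M ^ 4 := pow_le_pow_right₀ hM (by norm_num)
    exact mul_le_mul_of_nonneg_right this hG
  have b7 : M ^ 2 * M ^ 2 * G = M ^ 4 * G := by ring
  nlinarith

lemma vz_add (r : Fin 15) (a b : Z3) : vz r (a + b) = vz r a + vz r b := by
  simp only [vz, Pi.add_apply]
  ring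

lemma vz_sub (r : Fin 15) (a b : Z3) : vz r (a - b) = vz r a - vz r b := by
  simp only [vz, Pi.sub_apply]
  ring

lemma abs_le_len (k : Z3) (j : Fin 3) : |(k j : ℝ)| ≤ len k := by
  unfold len nsq
  apply Real.abs_le_sqrt
  push_cast
  exact Finset.single_le_sum (f := fun j => (k j : ℝ) ^ 2) (fun j _ => sq_nonneg _)
    (Finset.mem_univ j)

lemma one_le_len (k : Z3) (hk : k ≠ 0) : 1 ≤ len k := by
  obtain ⟨j, hj⟩ := Function.ne_iff.1 hk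
  refine le_trans ?_ (abs_le_len k j)
  have h1 : (1 : ℤ) ≤ |k j| := Int.one_le_abs hj
  exact_mod_cast h1

lemma vz_le (r : Fin 15) (k : Z3) : |(vz r k : ℝ)| ≤ 400 * len k := by
  have h0 := abs_le_len k 0
  have h1 := abs_le_len k 1
  have h2 := abs_le_len k 2
  have hr : ((r.1 : ℕ) : ℝ) ≤ 14 := by
    have : r.1 ≤ 14 := by omega
    exact_mod_cast this
  have hr0 : (0 : ℝ) ≤ ((r.1 : ℕ) : ℝ) := Nat.cast_nonneg _
  have hl : 0 ≤ len k := Real.sqrt_nonneg _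
  have e : (vz r k : ℝ) = (k 0 : ℝ) + (r.1 : ℝ) * (k 1 : ℝ) + (r.1 : ℝ) ^ 2 * (k 2 : ℝ) := by
    unfold vz
    push_cast
    rfl
  rw [e]
  have t1 : |(r.1 : ℝ) * (k 1 : ℝ)| ≤ 14 * len k := by
    rw [abs_mul, abs_of_nonneg hr0]
    exact mul_le_mul hr h1 (abs_nonneg _) (by norm_num)
  have t2 : |(r.1 : ℝ) ^ 2 * (k 2 : ℝ)| ≤ 196 * len k := by
    rw [abs_mul, abs_of_nonneg (by positivity)]
    refine mul_le_mul ?_ h2 (abs_nonneg _) (by norm_num)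
    nlinarith
  have t3 := abs_add_le ((k 0 : ℝ) + (r.1 : ℝ) * (k 1 : ℝ)) ((r.1 : ℝ) ^ 2 * (k 2 : ℝ))
  have t4 := abs_add_le (k 0 : ℝ) ((r.1 : ℝ) * (k 1 : ℝ))
  linarith

lemma cast_one_le {n : ℤ} (h : n ≠ 0) : 1 ≤ |(n : ℝ)| := by
  have h1 : (1 : ℤ) ≤ |n| := Int.one_le_abs h
  exact_mod_cast h1

/-- the coefficient of one mode -/
noncomputable def tc (s : Bool) (r : Fin 15) (m : Md) : ℝ :=
  if m.2 = s then (EZ s m.1.1 : ℝ) * (vz r m.1.1 : ℝ) ^ 1831 else 0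

lemma tc_pow (s : Bool) (r : Fin 15) (m : Md) (j : ℕ) :
    (if m.2 = s then (EZ s m.1.1 : ℝ) * (vz r m.1.1 : ℝ) ^ (1831 + 2 * j) else 0) =
      tc s r m * ((vz r m.1.1 : ℝ) ^ 2) ^ j := by
  unfold tc
  split_ifs
  · rw [pow_add, pow_mul, mul_assoc]
  · rw [zero_mul]

lemma Fc_eq (i a b : Md) (s : Bool) (r : Fin 15) (j : Fin 3) :
    Fc i a b (s, r, j) = tc s r a * ((vz r a.1.1 : ℝ) ^ 2) ^ j.1 +
      tc s r b * ((vz r b.1.1 : ℝ) ^ 2) ^ j.1 + (-tc s r i) * ((vz r i.1.1 : ℝ) ^ 2) ^ j.1 := by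
  unfold Fc
  rw [tc_pow, tc_pow, tc_pow]
  ring

lemma tc_lower (k : Md) (r : Fin 15) (c0 : ℝ) (hc0 : 0 < c0) (hk : ¬ unr k)
    (h : c0 * len k.1.1 ≤ |(vz r k.1.1 : ℝ)|) : (c0 * ln k) ^ 1831 ≤ |tc k.2 r k| := by
  unfold tc
  rw [if_pos rfl, abs_mul, abs_pow]
  have h1 : 1 ≤ |(EZ k.2 k.1.1 : ℝ)| := cast_one_le hk
  have h2 : (c0 * ln k) ^ 1831 ≤ |(vz r k.1.1 : ℝ)| ^ 1831 :=
    pow_le_pow_left₀ (mul_nonneg hc0.le (Real.sqrt_nonneg _)) h 1831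
  exact h2.trans (le_mul_of_one_le_left (by positivity) h1)

theorem t_VAN : S_VAN := by
  rintro ⟨c0, hc0, hlin⟩
  refine ⟨c0 ^ 1831 / (4 * 400 ^ 4), by positivity, ?_⟩
  intro i a b k hab hpar hk hunr
  obtain ⟨r, ha, hb, hw, hd, hd1, hd2, hlow⟩ := hlin a.1.1 b.1.1 hpar k.1.1 (by
    rcases hk with rfl | rfl | rfl
    · exact Or.inl rfl
    · exact Or.inr (Or.inl rfl)
    · exact Or.inr (Or.inr hab.symm))
  set s := k.2 with hs
  obtain ⟨j, hj⟩ := Finite.exists_max (fun j : Fin 3 => |Fc i a b (s, r, j)|)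
  refine ⟨(s, r, j), ?_⟩
  set G := |Fc i a b (s, r, j)| with hG
  have h0 := hj 0
  have h1 := hj 1
  have h2 := hj 2
  simp only [Fc_eq] at h0 h1 h2
  have e0 : ((0 : Fin 3) : ℕ) = 0 := rfl
  have e1 : ((1 : Fin 3) : ℕ) = 1 := rfl
  have e2 : ((2 : Fin 3) : ℕ) = 2 := rfl
  rw [e0] at h0
  rw [e1] at h1
  rw [e2] at h2
  simp only [pow_zero, mul_one, pow_one] at h0 h1
  -- the nodes
  have hwi : (vz r i.1.1 : ℝ) = (vz r a.1.1 : ℝ) + (vz r b.1.1 : ℝ) := by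
    rw [← hab, vz_add]
    push_cast
    rfl
  rw [vz_add] at hw
  rw [vz_sub] at hd
  rw [vz_add, vz_add] at hd1 hd2
  have mxa : ln a ≤ mx i (a, b) := (le_max_left _ _).trans (le_max_left _ _)
  have mxb : ln b ≤ mx i (a, b) := (le_max_right _ _).trans (le_max_left _ _)
  have mxi : ln i ≤ mx i (a, b) := le_max_right _ _
  have mx1 : 1 ≤ mx i (a, b) := (one_le_len _ a.1.2).trans mxa
  set M := 400 * mx i (a, b) with hM
  have hM1 : 1 ≤ M := by linarith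
  have hxa : |(vz r a.1.1 : ℝ)| ≤ M := (vz_le r _).trans (by
    have : len a.1.1 ≤ mx i (a, b) := mxa
    linarith)
  have hxb : |(vz r b.1.1 : ℝ)| ≤ M := (vz_le r _).trans (by
    have : len b.1.1 ≤ mx i (a, b) := mxb
    linarith)
  have hxi : |(vz r i.1.1 : ℝ)| ≤ M := (vz_le r _).trans (by
    have : len i.1.1 ≤ mx i (a, b) := mxi
    linarith)
  have key : |tc s r k| ≤ 4 * M ^ 4 * G := by
    rcases hk with rfl | rfl | rfl
    · refine lag _ _ _ _ _ _ _ _ h0 h1 h2 hM1 hxb hxi ?_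
      rw [hwi]
      have hz : ((vz r k.1.1 ^ 2 - vz r b.1.1 ^ 2) *
          (vz r k.1.1 ^ 2 - (vz r k.1.1 + vz r b.1.1) ^ 2)) ≠ 0 := by
        have e : ((vz r k.1.1 ^ 2 - vz r b.1.1 ^ 2) *
          (vz r k.1.1 ^ 2 - (vz r k.1.1 + vz r b.1.1) ^ 2)) =
          -((vz r k.1.1 - vz r b.1.1) * (vz r k.1.1 + vz r b.1.1) * vz r b.1.1 *
            (vz r k.1.1 + vz r k.1.1 + vz r b.1.1)) := by ring
        rw [e]
        exact neg_ne_zero.2 (mul_ne_zero (mul_ne_zero (mul_ne_zero hd hw) hb) hd1)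
      have := cast_one_le hz
      push_cast at this
      exact this
    · refine lag (vz r k.1.1) (vz r a.1.1) (vz r i.1.1) _ (tc s r a) (-tc s r i) _ _ ?_ ?_ ?_
        hM1 hxa hxi ?_
      · rw [add_comm (tc s r k)]; exact h0
      · rw [add_comm (tc s r k * _)]; exact h1
      · rw [add_comm (tc s r k * _)]; exact h2
      rw [hwi]
      have hz : ((vz r k.1.1 ^ 2 - vz r a.1.1 ^ 2) *
          (vz r k.1.1 ^ 2 - (vz r a.1.1 + vz r k.1.1) ^ 2)) ≠ 0 := by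
        have e : ((vz r k.1.1 ^ 2 - vz r a.1.1 ^ 2) *
          (vz r k.1.1 ^ 2 - (vz r a.1.1 + vz r k.1.1) ^ 2)) =
          (vz r a.1.1 - vz r k.1.1) * (vz r a.1.1 + vz r k.1.1) * vz r a.1.1 *
            (vz r a.1.1 + vz r k.1.1 + vz r k.1.1) := by ring
        rw [e]
        exact mul_ne_zero (mul_ne_zero (mul_ne_zero hd hw) ha) hd2
      have := cast_one_le hz
      push_cast at this
      exact this
    · rw [← abs_neg (tc s r k)]
      refine lag (vz r k.1.1) (vz r a.1.1) (vz r b.1.1) _ (tc s r a) (tc s r b) _ _ ?_ ?_ ?_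
        hM1 hxa hxb ?_
      · rw [add_assoc, add_comm (-tc s r k)]; exact h0
      · rw [add_assoc, add_comm (-tc s r k * _)]; exact h1
      · rw [add_assoc, add_comm (-tc s r k * _)]; exact h2
      rw [hwi]
      have hz : (((vz r a.1.1 + vz r b.1.1) ^ 2 - vz r a.1.1 ^ 2) *
          ((vz r a.1.1 + vz r b.1.1) ^ 2 - vz r b.1.1 ^ 2)) ≠ 0 := by
        have e : (((vz r a.1.1 + vz r b.1.1) ^ 2 - vz r a.1.1 ^ 2) *
          ((vz r a.1.1 + vz r b.1.1) ^ 2 - vz r b.1.1 ^ 2)) =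
          vz r b.1.1 * (vz r a.1.1 + vz r a.1.1 + vz r b.1.1) * vz r a.1.1 *
            (vz r a.1.1 + vz r b.1.1 + vz r b.1.1) := by ring
        rw [e]
        exact mul_ne_zero (mul_ne_zero (mul_ne_zero hb hd1) ha) hd2
      have := cast_one_le hz
      push_cast at this
      exact this
  have hlow' := tc_lower k r c0 hc0 hunr hlow
  have h5 : (c0 * ln k) ^ 1831 ≤ 4 * M ^ 4 * G := hlow'.trans key
  rw [mul_pow] at h5
  have h6 : 4 * M ^ 4 * G = (4 * 400 ^ 4) * (mx i (a, b) ^ 4 * G) := by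
    rw [hM, mul_pow]
    ring
  rw [h6] at h5
  rw [div_mul_eq_mul_div, div_le_iff₀ (by norm_num)]
  linarith

end Pool.Agent.Y523.EP.Van
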